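import Mathlib

/-!
# Infinite monochromatic paths in factor-of-iid Schreier decorations

A Cayley graph of `S₃ × ℤ` of degree `12` whose link is asymmetric, so that all of its
automorphisms are left translations.  The decoration by generators is then invariant under all
automorphisms, hence a (constant) factor of iid, and it has infinite monochromatic paths.
-/

namespace Pool.Agent.Results.MP_a13a55_pr.RigidCayley

open MeasureTheory

/-- The law of iid uniform `[0,1]` labels on the vertices. -/
noncomputable def iid (V : Type) : Measure (V → unitInterval) :=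
  Measure.infinitePi (fun _ : V => (volume : Measure unitInterval))

/-- A decoration of the (directed) edges with values in `X` is a function `V → V → X`, read on
adjacent pairs.  A factor map is a measurable map from labels to decorations which commutes with
the action of the automorphisms of `G`. -/
structure IsFactorMap {V X : Type} [MeasurableSpace X] (G : SimpleGraph V)
    (F : (V → unitInterval) → (V → V → X)) : Prop where
  measurable : Measurable F
  equivariant : ∀ (g : G ≃g G) (ω : V → unitInterval) (x y : V), G.Adj x y →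
    F (fun v => ω (g.symm v)) x y = F ω (g.symm x) (g.symm y)

/-- `D` is a Schreier decoration of `G` with `d` colours: `(D x y).2` is the colour of the edge
`xy`, and `(D x y).1` tells whether it is oriented from `x` to `y`; at every vertex, for each
colour, exactly one edge of that colour points out and exactly one points in. -/
def IsSchreier {V : Type} {d : ℕ} (G : SimpleGraph V) (D : V → V → Bool × Fin d) : Prop :=
  (∀ x y, G.Adj x y → (D y x).2 = (D x y).2 ∧ (D y x).1 = !(D x y).1) ∧
  (∀ (x : V) (i : Fin d), (∃! y, G.Adj x y ∧ D x y = (true, i)) ∧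
    (∃! y, G.Adj x y ∧ D x y = (false, i)))

/-- There is an infinite monochromatic path. -/
def HasInfiniteMonoPath {V : Type} {d : ℕ} (G : SimpleGraph V) (D : V → V → Bool × Fin d) :
    Prop :=
  ∃ (i : Fin d) (p : ℕ → V), Function.Injective p ∧
    ∀ n, G.Adj (p n) (p (n + 1)) ∧ (D (p n) (p (n + 1))).2 = i

/-- `Aut(G)` acts transitively on the vertices. -/
def Transitive {V : Type} (G : SimpleGraph V) : Prop := ∀ x y : V, ∃ g : G ≃g G, g x = y

/-! ### The group and the generators -/

abbrev Gam := Equiv.Perm (Fin 3) × Multiplicative ℤ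

def r : Equiv.Perm (Fin 3) := finRotate 3

def gen : Fin 12 → Gam
  | 0 => (Equiv.swap 0 1, Multiplicative.ofAdd 1)
  | 1 => (Equiv.swap 0 1, Multiplicative.ofAdd (-1))
  | 2 => (Equiv.swap 1 2, Multiplicative.ofAdd 2)
  | 3 => (Equiv.swap 1 2, Multiplicative.ofAdd (-2))
  | 4 => (r, Multiplicative.ofAdd 1)
  | 5 => (r⁻¹, Multiplicative.ofAdd (-1))
  | 6 => (1, Multiplicative.ofAdd 2)
  | 7 => (1, Multiplicative.ofAdd (-2))
  | 8 => (r⁻¹, Multiplicative.ofAdd 2)
  | 9 => (r, Multiplicative.ofAdd (-2))
  | 10 => (r⁻¹, Multiplicative.ofAdd 1)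
  | 11 => (r, Multiplicative.ofAdd (-1))

/-- The index of the inverse generator. -/
def bar : Fin 12 → Fin 12
  | 0 => 1 | 1 => 0 | 2 => 3 | 3 => 2 | 4 => 5 | 5 => 4
  | 6 => 7 | 7 => 6 | 8 => 9 | 9 => 8 | 10 => 11 | 11 => 10

lemma gen_inj : ∀ i j, gen i = gen j → i = j := by decide +kernel

lemma gen_ne_one : ∀ i, gen i ≠ 1 := by decide +kernel

lemma gen_bar : ∀ i, gen i * gen (bar i) = 1 := by decide +kernel

/-- The adjacency table of the link. -/
def T : Fin 12 → Fin 12 → Bool := ![
  ![false, true, true, false, false, false, true, false, false, false, false, true],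
  ![true, false, false, true, true, false, false, true, false, false, false, false],
  ![true, false, false, false, false, false, false, false, false, false, true, false],
  ![false, true, false, false, false, true, false, false, false, false, false, false],
  ![false, true, false, false, false, true, true, false, true, false, false, true],
  ![false, false, false, true, true, false, false, true, false, true, true, false],
  ![true, false, false, false, true, false, false, false, false, false, true, false],
  ![false, true, false, false, false, true, false, false, false, false, false, true],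
  ![false, false, false, false, true, false, false, false, false, false, false, false],
  ![false, false, false, false, false, true, false, false, false, false, false, false],
  ![false, false, true, false, false, true, true, false, false, false, false, false],
  ![true, false, false, false, true, false, false, true, false, false, false, false]]

lemma T_spec : ∀ i j, T i j = decide (∃ k, gen j = gen i * gen k) := by decide +kernel

def v0 : Fin 12 → ℕ := fun _ => 1
def v1 : Fin 12 → ℕ := ![4, 4, 2, 2, 5, 5, 3, 3, 1, 1, 3, 3]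
def v2 : Fin 12 → ℕ := ![12, 14, 7, 9, 16, 14, 12, 12, 5, 5, 10, 12]
def v3 : Fin 12 → ℕ := ![45, 49, 22, 28, 57, 52, 38, 40, 16, 14, 33, 40]
def v4 : Fin 12 → ℕ := ![149, 170, 78, 101, 195, 172, 135, 141, 57, 52, 112, 142]

lemma v1_spec : ∀ i, v1 i = ∑ j, if T i j then v0 j else 0 := by decide +kernel
lemma v2_spec : ∀ i, v2 i = ∑ j, if T i j then v1 j else 0 := by decide +kernel
lemma v3_spec : ∀ i, v3 i = ∑ j, if T i j then v2 j else 0 := by decide +kernel
lemma v4_spec : ∀ i, v4 i = ∑ j, if T i j then v3 j else 0 := by decide +kernel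
lemma v4_inj : ∀ i j, v4 i = v4 j → i = j := by decide +kernel

lemma step (σ : Equiv.Perm (Fin 12)) (hσ : ∀ i j, T (σ i) (σ j) = T i j) (a b : Fin 12 → ℕ)
    (hb : ∀ i, b i = ∑ j, if T i j then a j else 0) (ha : ∀ i, a (σ i) = a i) :
    ∀ i, b (σ i) = b i := by
  intro i
  rw [hb, hb, ← Equiv.sum_comp σ]
  apply Finset.sum_congr rfl
  intro j _
  rw [hσ, ha]

/-- The link is asymmetric. -/
lemma rigid (σ : Equiv.Perm (Fin 12)) (hσ : ∀ i j, T (σ i) (σ j) = T i j) : ∀ i, σ i = i := by
  intro i
  apply v4_inj
  exact step σ hσ v3 v4 v4_spec (step σ hσ v2 v3 v3_spec (step σ hσ v1 v2 v2_spec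
    (step σ hσ v0 v1 v1_spec (fun _ => rfl)))) i

/-! ### The graph -/

lemma bar_bar : ∀ i, bar (bar i) = i := by decide

/-- The Cayley graph. -/
def G : SimpleGraph Gam where
  Adj x y := ∃ k, y = x * gen k
  symm := ⟨by
    rintro x y ⟨k, rfl⟩
    exact ⟨bar k, by rw [mul_assoc, gen_bar, mul_one]⟩⟩
  loopless := ⟨by
    rintro x ⟨k, hk⟩
    exact gen_ne_one k (mul_eq_left.mp hk.symm)⟩

lemma adj_iff (x y : Gam) : G.Adj x y ↔ ∃ k, y = x * gen k := Iff.rfl

lemma adj_gen (x : Gam) (i j : Fin 12) : G.Adj (x * gen i) (x * gen j) ↔ T i j = true := by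
  rw [adj_iff, T_spec, decide_eq_true_iff]
  constructor
  · rintro ⟨k, hk⟩
    rw [mul_assoc] at hk
    exact ⟨k, mul_left_cancel hk⟩
  · rintro ⟨k, hk⟩
    exact ⟨k, by rw [mul_assoc, hk]⟩

/-- Every automorphism commutes with right multiplication by the generators. -/
lemma aut_gen (g : G ≃g G) (x : Gam) (i : Fin 12) : g (x * gen i) = g x * gen i := by
  have h1 : ∀ i, ∃ j, g (x * gen i) = g x * gen j := fun i => g.map_adj_iff.mpr ⟨i, rfl⟩
  choose s hs using h1
  have hinj : Function.Injective s := by
    intro i j hij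
    have : g (x * gen i) = g (x * gen j) := by rw [hs, hs, hij]
    exact gen_inj i j (mul_left_cancel (g.injective this))
  let σ : Equiv.Perm (Fin 12) := Equiv.ofBijective s (Finite.injective_iff_bijective.mp hinj)
  have hσ : ∀ i j, T (σ i) (σ j) = T i j := by
    intro i j
    have h3 : G.Adj (g (x * gen i)) (g (x * gen j)) ↔ G.Adj (x * gen i) (x * gen j) :=
      g.map_adj_iff
    rw [hs, hs, adj_gen, adj_gen] at h3
    rw [Bool.eq_iff_iff]
    exact h3
  have := rigid σ hσ i
  rw [hs]
  have h2 : s i = i := this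
  rw [h2]

def lab (k : Fin 12) : Bool × Fin 6 := (decide (k.val % 2 = 0), ⟨k.val / 2, by omega⟩)

lemma lab_inj : ∀ i j, lab i = lab j → i = j := by decide
lemma lab_bar : ∀ k, (lab (bar k)).2 = (lab k).2 ∧ (lab (bar k)).1 = !(lab k).1 := by decide
lemma lab_surj : ∀ (b : Bool) (i : Fin 6), ∃ k, lab k = (b, i) := by decide

open Classical in
/-- The decoration by generators. -/
noncomputable def D (x y : Gam) : Bool × Fin 6 :=
  if h : ∃ k, y = x * gen k then lab h.choose else (true, 0)

lemma D_gen (x : Gam) (k : Fin 12) : D x (x * gen k) = lab k := by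
  have h : ∃ k', x * gen k = x * gen k' := ⟨k, rfl⟩
  unfold D
  rw [dif_pos h]
  congr 1
  exact (gen_inj _ _ (mul_left_cancel h.choose_spec)).symm

lemma D_schreier : IsSchreier G D := by
  constructor
  · rintro x y ⟨k, rfl⟩
    have h : D (x * gen k) x = lab (bar k) := by
      have := D_gen (x * gen k) (bar k)
      rwa [mul_assoc, gen_bar, mul_one] at this
    rw [h, D_gen]
    exact lab_bar k
  · intro x i
    have key : ∀ b : Bool, ∃! y, G.Adj x y ∧ D x y = (b, i) := by
      intro b
      obtain ⟨k, hk⟩ := lab_surj b i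
      refine ⟨x * gen k, ⟨⟨k, rfl⟩, by rw [D_gen, hk]⟩, ?_⟩
      rintro y ⟨⟨j, rfl⟩, hj⟩
      rw [D_gen, ← hk] at hj
      rw [lab_inj j k hj]
    exact ⟨key true, key false⟩

lemma D_path : HasInfiniteMonoPath G D := by
  refine ⟨3, fun n => (1, Multiplicative.ofAdd (2 * (n : ℤ))), ?_, ?_⟩
  · intro a b h
    have h1 := congrArg (fun z : Gam => Multiplicative.toAdd z.2) h
    have h2 : (2 * (a : ℤ)) = 2 * (b : ℤ) := h1
    omega
  · intro n
    have h : ((1, Multiplicative.ofAdd (2 * ((n + 1 : ℕ) : ℤ))) : Gam)
        = (1, Multiplicative.ofAdd (2 * (n : ℤ))) * gen 6 := by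
      apply Prod.ext
      · rfl
      · show Multiplicative.ofAdd (2 * ((n + 1 : ℕ) : ℤ))
          = Multiplicative.ofAdd (2 * (n : ℤ)) * Multiplicative.ofAdd 2
        rw [← ofAdd_add]
        congr 1
    refine ⟨⟨6, h⟩, ?_⟩
    simp only
    rw [h, D_gen]
    rfl

/-! ### Transitivity, connectedness, regularity -/

lemma transitive : Transitive G := by
  intro x y
  refine ⟨⟨Equiv.mulLeft (y * x⁻¹), ?_⟩, by simp⟩
  intro a b
  simp only [Equiv.coe_mulLeft]
  rw [adj_iff, adj_iff]
  constructor
  · rintro ⟨k, hk⟩
    exact ⟨k, by rw [mul_assoc (y * x⁻¹)] at hk; exact mul_left_cancel hk⟩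
  · rintro ⟨k, hk⟩
    exact ⟨k, by rw [hk, ← mul_assoc]⟩

lemma reach_gen (x : Gam) (k : Fin 12) : G.Reachable x (x * gen k) :=
  SimpleGraph.Adj.reachable ⟨k, rfl⟩

lemma reach_one (x : Gam) : G.Reachable x (x * (1, Multiplicative.ofAdd 1)) := by
  have h : x * gen 4 * gen 11 * gen 4 = x * (1, Multiplicative.ofAdd 1) := by
    have h2 : gen 4 * (gen 11 * gen 4) = (1, Multiplicative.ofAdd 1) := by decide +kernel
    rw [mul_assoc, mul_assoc, h2]
  rw [← h]
  exact (reach_gen x 4).trans ((reach_gen _ 11).trans (reach_gen _ 4))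

lemma reach_int (x : Gam) (n : ℤ) : G.Reachable x (x * (1, Multiplicative.ofAdd n)) := by
  induction n using Int.induction_on with
  | zero =>
    have : x * (1, Multiplicative.ofAdd (0 : ℤ)) = x := by
      rw [ofAdd_zero]; exact mul_one x
    rw [this]
  | succ n ih =>
    refine ih.trans ?_
    have h : x * (1, Multiplicative.ofAdd ((n : ℤ) + 1))
        = x * (1, Multiplicative.ofAdd (n : ℤ)) * (1, Multiplicative.ofAdd 1) := by
      rw [mul_assoc]; rfl
    rw [h]
    exact reach_one _
  | pred n ih =>
    refine ih.trans ?_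
    have h : x * (1, Multiplicative.ofAdd (-(n : ℤ)))
        = x * (1, Multiplicative.ofAdd (-(n : ℤ) - 1)) * (1, Multiplicative.ofAdd 1) := by
      rw [mul_assoc]
      congr 1
      apply Prod.ext
      · rfl
      · show Multiplicative.ofAdd (-(n : ℤ))
          = Multiplicative.ofAdd (-(n : ℤ) - 1) * Multiplicative.ofAdd 1
        rw [← ofAdd_add]
        congr 1
        ring
    rw [h]
    exact (reach_one _).symm

lemma reach_perm (x : Gam) (k : Fin 12) : G.Reachable x (x * ((gen k).1, 1)) := by
  refine (reach_gen x k).trans ?_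
  have h : x * ((gen k).1, 1) = x * gen k * (1, Multiplicative.ofAdd (-(Multiplicative.toAdd (gen k).2))) := by
    rw [mul_assoc]
    congr 1
    apply Prod.ext
    · simp
    · show 1 = (gen k).2 * Multiplicative.ofAdd (-(Multiplicative.toAdd (gen k).2))
      rw [ofAdd_neg, ofAdd_toAdd, mul_inv_cancel]
  rw [h]
  exact reach_int _ _

lemma perm_word : ∀ p : Equiv.Perm (Fin 3), ∃ i j : Fin 12, p = (gen i).1 * (gen j).1 := by
  decide +kernel

lemma connected : G.Connected := by
  have key : ∀ y : Gam, G.Reachable 1 y := by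
    rintro ⟨p, n⟩
    obtain ⟨i, j, hp⟩ := perm_word p
    have h : ((p, n) : Gam) = 1 * ((gen i).1, 1) * ((gen j).1, 1) *
        (1, Multiplicative.ofAdd (Multiplicative.toAdd n)) := by
      rw [hp, ofAdd_toAdd]
      apply Prod.ext
      · simp
      · simp
    rw [h]
    exact (reach_perm 1 i).trans ((reach_perm _ j).trans (reach_int _ _))
  exact ⟨fun x y => (key x).symm.trans (key y)⟩

lemma neighbor_eq (x : Gam) : G.neighborSet x = Set.range (fun k => x * gen k) := by
  ext y
  constructor
  · rintro ⟨k, hk⟩; exact ⟨k, hk.symm⟩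
  · rintro ⟨k, hk⟩; exact ⟨k, hk.symm⟩

lemma neighbor_card (x : Gam) : (G.neighborSet x).ncard = 2 * 6 := by
  rw [neighbor_eq, ← Set.image_univ, Set.ncard_image_of_injective, Set.ncard_univ, Nat.card_fin]
  intro i j h
  exact gen_inj i j (mul_left_cancel h)

/-- **Yes**: there are `d ≥ 1`, a connected, transitive, `2d`-regular graph `G` and a
factor-of-iid Schreier decoration of `G` which almost surely has an infinite monochromatic
path. -/
theorem result : ∃ (d : ℕ) (V : Type) (_ : Countable V) (G : SimpleGraph V),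
    1 ≤ d ∧ G.Connected ∧ Transitive G ∧
    (∀ x, (G.neighborSet x).Finite ∧ (G.neighborSet x).ncard = 2 * d) ∧
    ∃ F : (V → unitInterval) → (V → V → Bool × Fin d),
      IsFactorMap G F ∧ (∀ᵐ ω ∂(iid V), IsSchreier G (F ω)) ∧
      (∀ᵐ ω ∂(iid V), HasInfiniteMonoPath G (F ω)) ∧
      0 < (iid V) {ω | HasInfiniteMonoPath G (F ω)} := by
  refine ⟨6, Gam, inferInstance, G, by norm_num, connected, transitive, ?_, fun _ => D,
    ⟨measurable_const, ?_⟩, Filter.Eventually.of_forall (fun _ => D_schreier),
    Filter.Eventually.of_forall (fun _ => D_path), ?_⟩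
  · intro x
    refine ⟨?_, neighbor_card x⟩
    rw [neighbor_eq]
    exact Set.finite_range _
  · rintro g ω x y ⟨k, rfl⟩
    rw [D_gen, aut_gen g.symm, D_gen]
  · have h : {ω : Gam → unitInterval | HasInfiniteMonoPath G D} = Set.univ := by
      ext ω
      exact ⟨fun _ => trivial, fun _ => D_path⟩
    rw [h]
    unfold iid
    rw [measure_univ]
    exact one_pos

end Pool.Agent.Results.MP_a13a55_pr.RigidCayley
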